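import Pool.Agent.H63.WT.TD

/-!
Board wit_modules, row SP7: the member of the pencil at a value and trace forms of degree 7.
-/

set_option autoImplicit false

open Polynomial Matrix Pool.Agent.H63.WT

namespace Pool.Agent.H80.WT

section

variable {F : Type} [Field F]

theorem dot_symm {ι : Type} [Fintype ι] [DecidableEq ι] {A : Matrix ι ι F} (hA : A.IsSymm)
    (x y : ι → F) : x ⬝ᵥ (A *ᵥ y) = y ⬝ᵥ (A *ᵥ x) := by
  rw [Matrix.dotProduct_mulVec, ← Matrix.mulVec_transpose, hA.eq, dotProduct_comm]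

/-- a totally isotropic subspace has at most half the dimension -/
theorem tis_le {ι : Type} [Fintype ι] [DecidableEq ι] (A : Matrix ι ι F) (hA : A.det ≠ 0)
    (r : ℕ) (h : TIs A r) : 2 * r ≤ Fintype.card ι := by
  obtain ⟨b, hb, hb0⟩ := h
  set B : Matrix (Fin r) ι F := Matrix.of b with hB
  have hrk : B.rank = r := by
    have := LinearIndependent.rank_matrix (M := B) hb
    rw [this, Fintype.card_fin]
  have h0 : B * A * Bᵀ = 0 := by
    ext i j
    have h1 : (B * A * Bᵀ) i j = b i ⬝ᵥ (A *ᵥ b j) := by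
      rw [Matrix.mul_assoc, Matrix.mul_apply]
      rfl
    rw [h1, hb0]
    rfl
  have h1 := Matrix.rank_add_rank_le_card_of_mul_eq_zero h0
  rw [Matrix.rank_transpose, Matrix.rank_mul_eq_left_of_isUnit_det A B (Ne.isUnit hA),
    hrk] at h1
  omega

/-- the orthogonal complement of a small totally isotropic subspace is not isotropic -/
theorem exists_aniso (h2 : (2 : F) ≠ 0) {ι : Type} [Fintype ι] [DecidableEq ι]
    (A : Matrix ι ι F) (hA : SN A) (r : ℕ) (hc : Fintype.card ι = 2 * r + 1)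
    (b : Fin r → ι → F) :
    ∃ v : ι → F, (∀ i, b i ⬝ᵥ (A *ᵥ v) = 0) ∧ v ⬝ᵥ (A *ᵥ v) ≠ 0 := by
  by_contra hno
  push Not at hno
  set T : (ι → F) →ₗ[F] (Fin r → F) := (Matrix.of b * A).mulVecLin with hT
  have hTv : ∀ v i, T v i = b i ⬝ᵥ (A *ᵥ v) := by
    intro v i
    rw [hT, Matrix.mulVecLin_apply, ← Matrix.mulVec_mulVec]
    rfl
  have hk : r + 1 ≤ Module.finrank F (LinearMap.ker T) := by
    have h1 := LinearMap.finrank_range_add_finrank_ker T
    rw [Module.finrank_fintype_fun_eq_card, hc] at h1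
    have h3 : Module.finrank F (LinearMap.range T) ≤ r := by
      refine (Submodule.finrank_le _).trans ?_
      rw [Module.finrank_fintype_fun_eq_card, Fintype.card_fin]
    omega
  obtain ⟨f, hf⟩ := exists_linearIndependent_of_le_finrank hk
  have hker : ∀ z : LinearMap.ker T, ∀ i, b i ⬝ᵥ (A *ᵥ (z : ι → F)) = 0 := by
    intro z i
    rw [← hTv, LinearMap.mem_ker.mp z.2]
    rfl
  have hq : ∀ z : LinearMap.ker T, (z : ι → F) ⬝ᵥ (A *ᵥ (z : ι → F)) = 0 :=
    fun z => hno _ (hker z)
  have hT' : TIs A (r + 1) := by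
    refine ⟨fun i => (f i : ι → F), hf.map' (LinearMap.ker T).subtype
      (Submodule.ker_subtype _), ?_⟩
    intro i j
    have e := hq (f i + f j)
    rw [Submodule.coe_add, Matrix.mulVec_add, add_dotProduct, dotProduct_add, dotProduct_add,
      hq, hq, dot_symm hA.1 (f j : ι → F) (f i : ι → F)] at e
    have e2 : 2 * ((f i : ι → F) ⬝ᵥ (A *ᵥ (f j : ι → F))) = 0 := by
      rw [← e]
      ring
    exact (mul_eq_zero.mp e2).resolve_left h2
  have := tis_le A hA.2 (r + 1) hT'
  omega

/-- the matrix with one entry -/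
def m1 (c : F) : Matrix (Fin 1) (Fin 1) F := Matrix.of (fun _ _ => c)

/-- the block form with a one-dimensional summand -/
theorem blk_dot {ι : Type} [Fintype ι] (A : Matrix ι ι F) (c : F) (x y : ι → F) (s t : F) :
    (Sum.elim x (fun _ : Fin 1 => s)) ⬝ᵥ
      ((fromBlocks A 0 0 (m1 c)) *ᵥ (Sum.elim y (fun _ : Fin 1 => t))) =
      x ⬝ᵥ (A *ᵥ y) + s * (c * t) := by
  rw [Matrix.fromBlocks_mulVec, sumElim_dotProduct_sumElim]
  simp [dotProduct, Matrix.mulVec, m1]

theorem sn_one {c : F} (hc : c ≠ 0) : SN (m1 c) := by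
  refine ⟨rfl, ?_⟩
  rw [Matrix.det_fin_one]
  exact hc

theorem on_m1 (c : F) : cls (m1 c) = on c := rfl

theorem sn_blk {ι : Type} [Fintype ι] [DecidableEq ι] {A : Matrix ι ι F} (hA : SN A) {c : F}
    (hc : c ≠ 0) : SN (fromBlocks A 0 0 (m1 c)) := by
  refine ⟨?_, ?_⟩
  · refine Matrix.IsSymm.fromBlocks hA.1 ?_ (sn_one hc).1
    rw [Matrix.transpose_zero]
  · rw [Matrix.det_fromBlocks_zero₂₁, Matrix.det_fin_one]
    exact mul_ne_zero hA.2 hc

theorem iso_span {κ : Type} [Fintype κ] (M : Matrix κ κ F) {r : ℕ} (b : Fin r → κ → F)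
    (hb0 : ∀ i j, b i ⬝ᵥ (M *ᵥ b j) = 0) (x y : κ → F)
    (hx : x ∈ Submodule.span F (Set.range b)) (hy : y ∈ Submodule.span F (Set.range b)) :
    x ⬝ᵥ (M *ᵥ y) = 0 := by
  have h1 : ∀ i, b i ⬝ᵥ (M *ᵥ y) = 0 := by
    intro i
    induction hy using Submodule.span_induction with
    | mem y hy =>
      obtain ⟨j, rfl⟩ := hy
      exact hb0 i j
    | zero => rw [Matrix.mulVec_zero, dotProduct_zero]
    | add y z _ _ h1 h2 => rw [Matrix.mulVec_add, dotProduct_add, h1, h2, add_zero]
    | smul a y _ h1 => rw [Matrix.mulVec_smul, dotProduct_smul, h1, smul_zero]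
  induction hx using Submodule.span_induction with
  | mem x hx =>
    obtain ⟨i, rfl⟩ := hx
    exact h1 i
  | zero => rw [zero_dotProduct]
  | add y z _ _ h1 h2 => rw [add_dotProduct, h1, h2, add_zero]
  | smul a y _ h1 => rw [smul_dotProduct, h1, smul_zero]

/-- vectors in a span with one coordinate zero -/
theorem exists_ker {κ : Type} [Fintype κ] (a₀ : κ) {r : ℕ} (b : Fin (r + 1) → κ → F)
    (hb : LinearIndependent F b) : ∃ w : Fin r → κ → F, LinearIndependent F w ∧
      (∀ i, w i ∈ Submodule.span F (Set.range b)) ∧ ∀ i, w i a₀ = 0 := by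
  have hUr : Module.finrank F (Submodule.span F (Set.range b)) = r + 1 := by
    rw [finrank_span_eq_card hb, Fintype.card_fin]
  obtain ⟨K, hK⟩ : ∃ K : Submodule F (κ → F), K = LinearMap.ker (LinearMap.proj a₀ : (κ → F) →ₗ[F] F) := ⟨_, rfl⟩
  have hKr : Fintype.card κ ≤ Module.finrank F K + 1 := by
    have h1 := LinearMap.finrank_range_add_finrank_ker (LinearMap.proj a₀ : (κ → F) →ₗ[F] F)
    rw [Module.finrank_fintype_fun_eq_card, ← hK] at h1
    have h3 : Module.finrank F (LinearMap.range (LinearMap.proj a₀ : (κ → F) →ₗ[F] F)) ≤ 1 := by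
      refine (Submodule.finrank_le _).trans ?_
      rw [Module.finrank_self]
    omega
  have hKm : ∀ x ∈ K, x a₀ = 0 := by
    intro x hx
    rw [hK, LinearMap.mem_ker] at hx
    exact hx
  clear hK
  have h4 := Submodule.finrank_sup_add_finrank_inf_eq (Submodule.span F (Set.range b)) K
  have h5 : Module.finrank F ↥(Submodule.span F (Set.range b) ⊔ K) ≤ Fintype.card κ := by
    refine (Submodule.finrank_le _).trans ?_
    rw [Module.finrank_fintype_fun_eq_card]
  obtain ⟨W, hW⟩ : ∃ W : Submodule F (κ → F), W = Submodule.span F (Set.range b) ⊓ K := ⟨_, rfl⟩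
  have hWm : ∀ x ∈ W, x ∈ Submodule.span F (Set.range b) ∧ x ∈ K := by
    intro x hx
    rw [hW] at hx
    exact hx
  rw [← hW, hUr] at h4
  have h6 : r ≤ Module.finrank F W := by omega
  obtain ⟨f, hf⟩ := exists_linearIndependent_of_le_finrank h6
  refine ⟨fun i => (f i : κ → F), hf.map' W.subtype (Submodule.ker_subtype _), fun i => ?_,
    fun i => ?_⟩
  · exact (hWm _ (f i).2).1
  · exact hKm _ (hWm _ (f i).2).2

/-- extension by zero -/
theorem exists_ext (ι : Type) : ∃ L : (ι → F) →ₗ[F] (ι ⊕ Fin 1 → F),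
    ∀ z, L z = Sum.elim z (fun _ => 0) := by
  refine ⟨⟨⟨fun z => Sum.elim z (fun _ => 0), ?_⟩, ?_⟩, fun z => rfl⟩
  · intro x y
    funext a
    rcases a with a | a
    · rfl
    · simp
  · intro s x
    funext a
    rcases a with a | a
    · rfl
    · simp

/-- from the block form to the form -/
theorem tis_of_blk {ι : Type} [Fintype ι] [DecidableEq ι] (A : Matrix ι ι F) (c : F) (r : ℕ)
    (h : TIs (fromBlocks A 0 0 (m1 c)) (r + 1)) : TIs A r := by
  obtain ⟨b, hb, hb0⟩ := h
  obtain ⟨w, hw, hwU, hw0⟩ := exists_ker (Sum.inr 0) b hb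
  have hext : ∀ i, w i = Sum.elim (fun a => w i (Sum.inl a)) (fun _ => 0) := by
    intro i
    funext a
    rcases a with a | a
    · rfl
    · rw [Sum.elim_inr, Subsingleton.elim a 0]
      exact hw0 i
  obtain ⟨L, hL⟩ := exists_ext (F := F) ι
  refine ⟨fun i a => w i (Sum.inl a), ?_, ?_⟩
  · refine LinearIndependent.of_comp L ?_
    have : (L ∘ fun i a => w i (Sum.inl a)) = w := by
      funext i
      rw [Function.comp_apply, hL]
      exact (hext i).symm
    rw [this]
    exact hw
  · intro i j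
    have e := iso_span _ b hb0 _ _ (hwU i) (hwU j)
    rw [hext i, hext j, blk_dot, zero_mul, add_zero] at e
    exact e

/-- from the form to the block form -/
theorem blk_of_tis {ι : Type} [Fintype ι] [DecidableEq ι] (A : Matrix ι ι F) (hA : A.IsSymm)
    (r : ℕ) (b : Fin r → ι → F) (hb : LinearIndependent F b)
    (hb0 : ∀ i j, b i ⬝ᵥ (A *ᵥ b j) = 0) (v : ι → F) (hv : ∀ i, b i ⬝ᵥ (A *ᵥ v) = 0) :
    TIs (fromBlocks A 0 0 (m1 (-(v ⬝ᵥ (A *ᵥ v))))) (r + 1) := by
  obtain ⟨L, hL⟩ := exists_ext (F := F) ι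
  refine ⟨Fin.cons (Sum.elim v (fun _ => 1)) (fun i => Sum.elim (b i) (fun _ => 0)), ?_, ?_⟩
  · rw [linearIndependent_finCons]
    constructor
    · have h1 : (fun i => Sum.elim (b i) (fun _ : Fin 1 => (0 : F))) = L ∘ b := by
        funext i
        rw [Function.comp_apply, hL]
      rw [h1]
      refine hb.map' L ?_
      rw [LinearMap.ker_eq_bot']
      intro z hz
      rw [hL] at hz
      funext a
      exact congrFun hz (Sum.inl a)
    · intro hmem
      have h0 : ∀ x ∈ Submodule.span F (Set.range fun i => Sum.elim (b i)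
          (fun _ : Fin 1 => (0 : F))), x (Sum.inr 0) = 0 := by
        intro x hx
        induction hx using Submodule.span_induction with
        | mem x hx =>
          obtain ⟨i, rfl⟩ := hx
          rfl
        | zero => rfl
        | add y z _ _ h1 h2 => rw [Pi.add_apply, h1, h2, add_zero]
        | smul a y _ h1 => rw [Pi.smul_apply, h1, smul_zero]
      have := h0 _ hmem
      rw [Sum.elim_inr] at this
      exact one_ne_zero this
  · intro i j
    refine Fin.cases ?_ (fun i => ?_) i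
    · refine Fin.cases ?_ (fun j => ?_) j
      · rw [Fin.cons_zero, blk_dot]
        ring
      · rw [Fin.cons_zero, Fin.cons_succ, blk_dot, dot_symm hA, hv]
        ring
    · refine Fin.cases ?_ (fun j => ?_) j
      · rw [Fin.cons_zero, Fin.cons_succ, blk_dot, hv]
        ring
      · rw [Fin.cons_succ, Fin.cons_succ, blk_dot, hb0]
        ring

/-- transport of the index type -/
theorem tis_iff {n r : ℕ} (h : n = 7) (A : Matrix (Fin n) (Fin n) F)
    (B : Matrix (Fin 7) (Fin 7) F) (hAB : ∀ i j, A i j = B (Fin.cast h i) (Fin.cast h j)) :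
    Pool.Agent.H34.N6.TI B r ↔ TIs A r := by
  subst h
  have : A = B := by
    ext i j
    exact hAB i j
  rw [this]
  exact Iff.rfl

end

/-- Row SP7. -/
theorem pf_SP7 (hW0 : T_W0) (hCLS : T_CLS) (hGDT : T_GDT) (hSCR : T_SCR) (hSEU : T_SEU)
    (hSSQ : T_SSQ) (hMDS : T_MDS) (hONE : T_ONE) (hNNR : T_NNR) : T_SP7 := by
  intro E _ h2 P D t hP hdeg hPD hsq hPt
  obtain ⟨hc1, hc2, -, -, -⟩ := hCLS E h2
  obtain ⟨g1, g2, g3, g4, g5, g6, -⟩ := hGDT E P hP
  have hX : (X - C t).Monic := monic_X_sub_C t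
  have hcop : IsCoprime P (X - C t) := by
    rw [isCoprime_comm]
    refine (Polynomial.irreducible_X_sub_C t).coprime_iff_not_dvd.mpr ?_
    rw [Polynomial.dvd_iff_isRoot]
    exact hPt
  -- the class of `X - t`
  have hXt : S P (X - C t) = -on (eval t P) := by
    have e1 := hSCR E h2 P (X - C t) 1 hP hX hcop isCoprime_one_right
    have e2 : S (P * (X - C t)) 1 = 0 := by
      have := hSEU E h2 (P * (X - C t)) 1 (hP.mul hX) one_ne_zero
      rw [map_one, if_pos] at this
      · exact this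
      · rw [Polynomial.Monic.natDegree_mul hP hX, hdeg, natDegree_X_sub_C]
        decide
    have e3 : S (X - C t) (1 * P) = on (eval t P) := by
      rw [one_mul]
      exact (hSSQ E h2 (X - C t) hX).2.1 t rfl P hPt
    rw [e2, e3, one_mul] at e1
    exact (neg_eq_of_add_eq_zero_left e1.symm).symm
  -- the matrix
  have hcop2 : IsCoprime P (D * (X - C t)) := IsCoprime.mul_right hPD hcop
  have hSN : SN (gm P (D * (X - C t))) := ⟨g2 _, (g3 _).mpr hcop2⟩
  have hft : ∀ r, Pool.Agent.H34.N6.TI (Pool.Agent.H34.N6.ft P D t) r ↔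
      TIs (gm P (D * (X - C t))) r := by
    intro r
    refine tis_iff hdeg _ _ ?_
    intro i j
    have e0 : Pool.Agent.H34.N6.ft P D t (Fin.cast hdeg i) (Fin.cast hdeg j) =
        Pool.Agent.H34.N6.lam P (D * X ^ ((i : ℕ) + (j : ℕ) + 1)) -
        t * Pool.Agent.H34.N6.lam P (D * X ^ ((i : ℕ) + (j : ℕ) + 0)) := rfl
    rw [e0]
    unfold gm Pool.Agent.H34.N6.lam
    have e : D * (X - C t) * X ^ ((i : ℕ) + (j : ℕ)) =
        D * X ^ ((i : ℕ) + (j : ℕ) + 1) - C t * (D * X ^ ((i : ℕ) + (j : ℕ) + 0)) := by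
      ring
    rw [e, Polynomial.sub_modByMonic, ← Polynomial.smul_eq_C_mul, Polynomial.smul_modByMonic,
      Polynomial.coeff_sub, Polynomial.coeff_smul, smul_eq_mul]
  rw [hft, hXt]
  have hcard : Fintype.card (Fin P.natDegree) = 2 * 3 + 1 := by
    rw [Fintype.card_fin, hdeg]
  have hcard2 : Fintype.card (Fin P.natDegree ⊕ Fin 1) = 2 * 4 := by
    rw [Fintype.card_sum, hcard, Fintype.card_fin]
  constructor
  · -- a totally isotropic subspace
    rintro ⟨b, hb, hb0⟩
    obtain ⟨v, hv, hvv⟩ := exists_aniso h2 _ hSN 3 hcard b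
    have hT := blk_of_tis _ hSN.1 3 b hb hb0 v hv
    set d : E := -(v ⬝ᵥ (gm P (D * (X - C t)) *ᵥ v)) with hd
    have hd0 : d ≠ 0 := neg_ne_zero.mpr hvv
    have hM : SN (fromBlocks (gm P (D * (X - C t))) 0 0 (m1 d)) :=
      sn_blk hSN hd0
    have hMet : Met (fromBlocks (gm P (D * (X - C t))) 0 0 (m1 d)) :=
      ⟨4, hcard2, hT⟩
    have hcl := hc1 _ _ hM hMet
    rw [hc2 _ _ _ _ hSN (sn_one hd0)] at hcl
    have hsq2 := hMDS E h2 _ _ 4 hM hMet hcard2
    rw [Matrix.det_fromBlocks_zero₂₁, Matrix.det_fin_one] at hsq2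
    have hdet : (gm P (D * (X - C t))).det = nn P D * eval t P := by
      have h1 := g4 D (X - C t)
      have h3 := (hNNR E P (X - C t) hP hX).2
      have h4 := (hGDT E (X - C t) hX).2.2.2.2.2.2 t rfl P
      have e21 : P.natDegree * (P.natDegree - 1) / 2 = 21 := by rw [hdeg]
      rw [e21] at g1
      have nnd : ∀ h, nn P h = -(gm P h).det := by
        intro h
        unfold nn
        rw [g1]
        ring
      rw [h4, natDegree_X_sub_C, hdeg] at h3
      rw [h3, nnd (D * (X - C t))] at h1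
      have : (gm P (D * (X - C t))).det = -(nn P D * ((-1) ^ (7 * 1) * eval t P)) := by
        rw [← h1, neg_neg]
      rw [this]
      ring
    rw [hdet] at hsq2
    obtain ⟨s, hs⟩ := hsq
    obtain ⟨x, hx⟩ := hsq2
    have hs0 : s ≠ 0 := by
      rintro rfl
      apply hSN.2
      rw [hdet, hs]
      ring
    have hx' : s * s * eval t P * d = x * x := by
      rw [← hx, hs]
      change _ = (-1) ^ 4 * (s * s * eval t P * d)
      ring
    have hdd : d = eval t P * (x / (s * eval t P)) ^ 2 := by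
      field_simp
      rw [← pow_two, ← pow_two] at hx'
      rw [← hx']
      ring
    have hy0 : x / (s * eval t P) ≠ 0 := by
      intro h0
      apply hd0
      rw [hdd, h0]
      ring
    have hon : on d = on (eval t P) := by
      rw [hdd]
      exact (hONE E h2).1 _ _ hPt hy0
    rw [on_m1, hon] at hcl
    exact eq_neg_of_add_eq_zero_left hcl
  · -- the class
    intro hcl
    have hM : SN (fromBlocks (gm P (D * (X - C t))) 0 0 (m1 (eval t P))) :=
      sn_blk hSN hPt
    have h0 : cls (fromBlocks (gm P (D * (X - C t))) 0 0 (m1 (eval t P))) = 0 := by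
      rw [hc2 _ _ _ _ hSN (sn_one hPt)]
      have : S P (D * (X - C t)) + on (eval t P) = 0 := by
        rw [hcl, neg_add_cancel]
      exact this
    obtain ⟨r, hr, hT⟩ := hW0 E h2 _ _ hM h0
    have hr4 : r = 3 + 1 := by
      rw [hcard2] at hr
      omega
    subst hr4
    exact tis_of_blk _ _ 3 hT

end Pool.Agent.H80.WT
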